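import Mathlib
import Pool.Agent.U310.TQ.Stm

/-!
# Project TQ, package WIN: short windows are not full

The window `(y, y + K]` contains four disjoint blocks of length `K / 4`; each of them is full with
probability at most `2 ^ (- K / 4)`. (The hypothesis `S_FILT` is not used.)
-/

set_option autoImplicit false

open MeasureTheory ProbabilityTheory Filter
open scoped Topology ENNReal

namespace Pool.Agent.U94.TQ

open Pool.Agent.U310.TQ

/-- the length of the blocks -/
noncomputable def qq (y : ℕ) : ℕ := ⌊Real.log y ^ 3⌋₊ / 4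

lemma qq_large : ∀ᶠ y : ℕ in atTop, (1 / 2 : ℝ) ^ qq y ≤ 1 / (y : ℝ) ^ 2 := by
  have hlog : Tendsto (fun n : ℕ => Real.log n) atTop atTop :=
    Real.tendsto_log_atTop.comp tendsto_natCast_atTop_atTop
  filter_upwards [hlog.eventually_ge_atTop 6, eventually_ge_atTop 1] with y hy hy1
  have hy0 : (0 : ℝ) < y := by exact_mod_cast hy1
  obtain ⟨L, hL⟩ : ∃ L : ℝ, L = Real.log y := ⟨_, rfl⟩
  rw [← hL] at hy
  have h1 : L ^ 3 < (⌊L ^ 3⌋₊ : ℝ) + 1 := Nat.lt_floor_add_one _
  have h2 : ⌊L ^ 3⌋₊ < 4 * (⌊L ^ 3⌋₊ / 4) + 4 := by omega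
  have h3 : (⌊L ^ 3⌋₊ : ℝ) < 4 * ((⌊L ^ 3⌋₊ / 4 : ℕ) : ℝ) + 4 := by exact_mod_cast h2
  have h4 : 4 * L ≤ (qq y : ℝ) := by
    unfold qq
    rw [← hL]
    have h5 : 36 * L ≤ L ^ 3 := by
      have h6 : 0 ≤ L * ((L - 6) * (L + 6)) :=
        mul_nonneg (by linarith) (mul_nonneg (by linarith) (by linarith))
      have h7 : L ^ 3 - 36 * L = L * ((L - 6) * (L + 6)) := by ring
      linarith
    linarith
  have h6 : 2 * L ≤ (qq y : ℝ) * Real.log 2 := by
    have := Real.log_two_gt_d9
    nlinarith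
  have h7 : (y : ℝ) ^ 2 ≤ 2 ^ qq y := by
    rw [← Real.log_le_log_iff (by positivity) (by positivity), Real.log_pow, Real.log_pow, ← hL]
    exact_mod_cast h6
  rw [one_div, inv_pow, one_div]
  exact inv_anti₀ (by positivity) h7

/-- the block `i` -/
noncomputable def blk (y i : ℕ) : Finset ℕ := Finset.Ioc (y + i * qq y) (y + (i + 1) * qq y)

lemma blk_card (y i : ℕ) : (blk y i).card = qq y := by
  unfold blk
  rw [Nat.card_Ioc]
  have : (i + 1) * qq y = i * qq y + qq y := by ring
  omega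

theorem t_WIN : S_WIN := by
  intro _ Ω mΩ μ _ A hA
  -- the probabilities are at most one half
  have hlog : Tendsto (fun n : ℕ => Real.log n) atTop atTop :=
    Real.tendsto_log_atTop.comp tendsto_natCast_atTop_atTop
  have hhalf : ∀ᶠ m : ℕ in atTop, μ (A m) ≤ 1 / 2 := by
    filter_upwards [hA.dens.eventually (gt_mem_nhds (show (1 : ℝ) < 2 by norm_num)),
      hlog.eventually_ge_atTop 4] with m h1 h2
    have h3 : μ.real (A m) ≤ 1 / 2 := by
      by_contra hcon
      push Not at hcon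
      nlinarith
    have h4 : μ (A m) = ENNReal.ofReal (μ.real (A m)) := by
      rw [Measure.real, ENNReal.ofReal_toReal (measure_ne_top μ _)]
    rw [h4]
    have h5 : (1 / 2 : ℝ≥0∞) = ENNReal.ofReal (1 / 2) := by
      rw [ENNReal.ofReal_div_of_pos (by norm_num)]
      simp
    rw [h5]
    exact ENNReal.ofReal_le_ofReal h3
  obtain ⟨m₀, hm₀⟩ := eventually_atTop.1 hhalf
  obtain ⟨y₁, hy₁⟩ := eventually_atTop.1 qq_large
  let E : ℕ → Set Ω := fun y => {ω | max m₀ y₁ ≤ y ∧ ∃ i ∈ Finset.range 4, ω ∈ ⋂ m ∈ blk y i, A m}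
  have hE : ∀ y, μ (E y) ≤ ENNReal.ofReal (4 * (1 / (y : ℝ) ^ 2)) := by
    intro y
    by_cases hy : max m₀ y₁ ≤ y
    · have h1 : E y ⊆ ⋃ i ∈ Finset.range 4, ⋂ m ∈ blk y i, A m := by
        rintro ω ⟨_, i, hi, h⟩
        exact Set.mem_biUnion hi h
      refine (measure_mono h1).trans ((measure_biUnion_finset_le _ _).trans ?_)
      have h2 : ∀ i ∈ Finset.range 4, μ (⋂ m ∈ blk y i, A m) ≤ ENNReal.ofReal (1 / (y : ℝ) ^ 2) := by
        intro i _
        rw [hA.ind.meas_biInter]
        have h3 : ∏ m ∈ blk y i, μ (A m) ≤ ∏ _m ∈ blk y i, (1 / 2 : ℝ≥0∞) := by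
          refine Finset.prod_le_prod' fun m hm => hm₀ m ?_
          have h4 : y + i * qq y < m := (Finset.mem_Ioc.1 hm).1
          have h5 : m₀ ≤ y := (le_max_left _ _).trans hy
          omega
        refine h3.trans ?_
        rw [Finset.prod_const, blk_card]
        have h6 : (1 / 2 : ℝ≥0∞) = ENNReal.ofReal (1 / 2) := by
          rw [ENNReal.ofReal_div_of_pos (by norm_num)]
          simp
        rw [h6, ← ENNReal.ofReal_pow (by norm_num)]
        exact ENNReal.ofReal_le_ofReal (hy₁ y ((le_max_right _ _).trans hy))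
      refine (Finset.sum_le_sum h2).trans ?_
      rw [Finset.sum_const, Finset.card_range, nsmul_eq_mul, ENNReal.ofReal_mul (by norm_num)]
      simp
    · have h1 : E y = ∅ := by
        ext ω
        constructor
        · rintro ⟨h, _⟩
          exact absurd h hy
        · intro h; exact absurd h (Set.notMem_empty ω)
      rw [h1, measure_empty]
      exact zero_le
  have hsum : ∑' y, μ (E y) ≠ ∞ := by
    have hs : Summable fun y : ℕ => 4 * (1 / (y : ℝ) ^ 2) :=
      (Real.summable_one_div_nat_pow.mpr one_lt_two).mul_left 4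
    exact ne_top_of_le_ne_top hs.tsum_ofReal_ne_top (ENNReal.tsum_le_tsum hE)
  filter_upwards [ae_eventually_notMem hsum] with ω hω
  filter_upwards [hω, eventually_ge_atTop (max m₀ y₁)] with y h1 h2
  have h3 : ∀ i : Fin 4, ∃ m ∈ blk y i, ω ∉ A m := by
    intro i
    by_contra hcon
    push Not at hcon
    exact h1 ⟨h2, i, Finset.mem_range.2 i.2, Set.mem_iInter₂.2 hcon⟩
  choose m hm1 hm2 using h3
  have hlt : ∀ i j : Fin 4, i < j → m i < m j := by
    intro i j hij
    have a1 := (Finset.mem_Ioc.1 (hm1 i)).2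
    have a2 := (Finset.mem_Ioc.1 (hm1 j)).1
    have a3 : ((i : ℕ) + 1) * qq y ≤ (j : ℕ) * qq y := Nat.mul_le_mul_right _ hij
    omega
  have hinj : Function.Injective m := by
    intro i j hij
    rcases lt_trichotomy i j with h | h | h
    · exact absurd hij (hlt i j h).ne
    · exact h
    · exact absurd hij (hlt j i h).ne'
  refine ⟨Finset.univ.image m, ?_, fun k hk => ?_⟩
  · rw [Finset.card_image_of_injective _ hinj]
    simp
  · obtain ⟨i, _, rfl⟩ := Finset.mem_image.1 hk
    have a1 := (Finset.mem_Ioc.1 (hm1 i)).1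
    have a2 := (Finset.mem_Ioc.1 (hm1 i)).2
    have a3 : ((i : ℕ) + 1) * qq y ≤ 4 * qq y := Nat.mul_le_mul_right _ i.2
    have a4 : 4 * qq y ≤ ⌊Real.log y ^ 3⌋₊ := by
      unfold qq
      omega
    exact ⟨by omega, by omega, hm2 i⟩

end Pool.Agent.U94.TQ
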